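import Pool.Agent.R266.BE.Fin

set_option autoImplicit false

/-!
# Continuum of balanced beta-expansions (MP_d3ee63_an)

For every non integer `β > 2`, Lebesgue almost every point of `[0, ⌊β⌋ / (β - 1)]` has a continuum
of balanced `β`-expansions.
-/

open Set Filter Topology MeasureTheory

namespace Pool.Agent.Results.MP_d3ee63_an.BalancedContinuum

open Pool.Agent.R266.BE

/-- `ε` (indexed from `0`) is a `β`-expansion of `x` with digits `0, ..., ⌊β⌋` -/
def IsExpansion (β x : ℝ) (ε : ℕ → ℕ) : Prop :=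
  (∀ i, ε i ≤ ⌊β⌋₊) ∧ HasSum (fun i => (ε i : ℝ) / β ^ (i + 1)) x

/-- the digit `k` has frequency `r` in `ε` -/
def HasFreq (ε : ℕ → ℕ) (k : ℕ) (r : ℝ) : Prop :=
  Tendsto (fun n : ℕ => (((Finset.range n).filter (fun i => ε i = k)).card : ℝ) / n) atTop (𝓝 r)

/-- all digit frequencies exist, and those of `k` and `m - k` agree -/
def Balanced (m : ℕ) (ε : ℕ → ℕ) : Prop :=
  ∀ k ≤ m, ∃ r, HasFreq ε k r ∧ HasFreq ε (m - k) r

/-- Every non integer base `β > 2`: Lebesgue almost every `x` in `[0, ⌊β⌋ / (β - 1)]` has a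
continuum of balanced `β`-expansions. -/
theorem result (β : ℝ) (h2 : 2 < β) (hβ : ∀ n : ℕ, (n : ℝ) ≠ β) :
    ∀ᵐ x ∂(volume.restrict (Icc (0 : ℝ) (⌊β⌋₊ / (β - 1)))),
      Cardinal.mk {ε : ℕ → ℕ // IsExpansion β x ε ∧ Balanced ⌊β⌋₊ ε} = Cardinal.continuum := by
  have hlt : (⌊β⌋₊ : ℝ) < β := lt_of_le_of_ne (Nat.floor_le (by linarith)) (hβ _)
  let P : Par := ⟨β, ⌊β⌋₊, h2, hlt, Nat.lt_floor_add_one β⟩
  have hend : ((⌊β⌋₊ : ℝ) / (β - 1)) = 1 + 2 * P.lo := by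
    have h1 : (0 : ℝ) < β - 1 := by linarith
    have h3 : (β - 1) * P.lo = P.α := P.lo_mul
    have h4 : 2 * P.α = (⌊β⌋₊ : ℝ) + 1 - β := P.two_α
    rw [div_eq_iff h1.ne']
    linarith
  have hae : ∀ᵐ x : ℝ ∂volume, (x - P.lo) ∈ P.Int0 → (x - P.lo) ∈ P.Her P.T1 :=
    (measurePreserving_sub_right volume P.lo).quasiMeasurePreserving.ae P.ae_Her_T1
  have hne0 : ∀ᵐ x : ℝ ∂volume, x ≠ 0 := compl_mem_ae_iff.mpr (measure_singleton (0 : ℝ))
  have hne1 : ∀ᵐ x : ℝ ∂volume, x ≠ 1 + 2 * P.lo :=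
    compl_mem_ae_iff.mpr (measure_singleton (1 + 2 * P.lo))
  rw [ae_restrict_iff' measurableSet_Icc, hend]
  filter_upwards [hae, hne0, hne1] with x hx hx0 hx1 hmem
  have hint : (x - P.lo) ∈ P.Int0 := by
    have a1 : 0 < x := lt_of_le_of_ne hmem.1 (Ne.symm hx0)
    have a2 : x < 1 + 2 * P.lo := lt_of_le_of_ne hmem.2 hx1
    exact ⟨by linarith, by linarith⟩
  obtain ⟨f, hf, hprop⟩ := P.many (hx hint)
  have hct : ∀ (ε : ℕ → ℕ) (k n : ℕ),
      ct ε k n = (((Finset.range n).filter (fun i => ε i = k)).card : ℝ) := by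
    intro ε k n
    unfold ct
    rw [Finset.sum_boole]
  have hgood : ∀ σ, IsExpansion β x (f σ) ∧ Balanced ⌊β⌋₊ (f σ) := by
    intro σ
    obtain ⟨h1, h3, h4⟩ := hprop σ
    refine ⟨⟨h3, ?_⟩, ?_⟩
    · have := P.hasSum_exp h1
      rw [sub_add_cancel] at this
      exact this
    · intro k hk
      refine ⟨P.p k, ?_, ?_⟩
      · have := h4 k hk
        simp_rw [hct] at this
        exact this
      · have := h4 (⌊β⌋₊ - k) (Nat.sub_le _ _)
        rw [show P.p (⌊β⌋₊ - k) = P.p k from P.p_symm hk] at this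
        simp_rw [hct] at this
        exact this
  refine le_antisymm ?_ ?_
  · calc Cardinal.mk {ε : ℕ → ℕ // IsExpansion β x ε ∧ Balanced ⌊β⌋₊ ε}
        ≤ Cardinal.mk (ℕ → ℕ) := Cardinal.mk_subtype_le _
      _ = Cardinal.continuum := by simp
  · calc Cardinal.continuum = Cardinal.mk (ℕ → Bool) := by simp
      _ ≤ Cardinal.mk {ε : ℕ → ℕ // IsExpansion β x ε ∧ Balanced ⌊β⌋₊ ε} := by
        refine Cardinal.mk_le_of_injective (f := fun σ => ⟨f σ, hgood σ⟩) ?_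
        intro σ τ h
        exact hf (congrArg Subtype.val h)

end Pool.Agent.Results.MP_d3ee63_an.BalancedContinuum
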